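import Pool.Agent.U837.TP.Low

/-!
# The volume bound for Hermite's constant in all dimensions at least three
-/

set_option autoImplicit false

namespace Pool.Agent.U837.TP

open Matrix MeasureTheory Filter
open Pool.Agent.H160R3.Herm

theorem upperDensity_le_one {n : ℕ} (P : Set (EuclideanSpace ℝ (Fin n))) (r : ℝ) :
    Pool.Agent.H390R2.LP.upperDensity P r ≤ 1 := by
  unfold Pool.Agent.H390R2.LP.upperDensity
  refine limsup_le_of_le (by isBoundedDefault) (Eventually.of_forall fun R => ?_)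
  exact ENNReal.div_le_of_le_mul (by rw [one_mul]; exact measure_mono Set.inter_subset_left)

theorem gamma_bound : ∀ n : ℕ, 3 ≤ n →
    Real.Gamma ((n : ℝ) / 2 + 1) ^ 2 ≤ (Real.pi * (13 / 25) * n / 4) ^ n := by
  have hpi := Real.pi_gt_d2
  have hpi2 : (9.8 : ℝ) < Real.pi ^ 2 := by nlinarith
  have step : ∀ n : ℕ, 1 ≤ n →
      Real.Gamma ((n : ℝ) / 2 + 1) ^ 2 ≤ (Real.pi * (13 / 25) * n / 4) ^ n →
      Real.Gamma (((n + 2 : ℕ) : ℝ) / 2 + 1) ^ 2 ≤
        (Real.pi * (13 / 25) * ((n + 2 : ℕ) : ℝ) / 4) ^ (n + 2) := by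
    intro n hn h
    have hn' : (1 : ℝ) ≤ n := by exact_mod_cast hn
    have e1 : ((n + 2 : ℕ) : ℝ) / 2 + 1 = ((n : ℝ) / 2 + 1) + 1 := by push_cast; ring
    rw [e1, Real.Gamma_add_one (by positivity), mul_pow]
    have h1 : (3 : ℝ) ≤ (1 + 2 / (n : ℝ)) ^ n := by
      have := one_add_mul_le_pow (show (-2 : ℝ) ≤ 2 / n by
        have : (0 : ℝ) ≤ 2 / n := by positivity
        linarith) n
      have e : (n : ℝ) * (2 / n) = 2 := by field_simp
      rw [e] at this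
      linarith
    have e2 : (Real.pi * (13 / 25) * ((n + 2 : ℕ) : ℝ) / 4) ^ (n + 2) =
        (Real.pi * (13 / 25) * n / 4) ^ n * (1 + 2 / (n : ℝ)) ^ n *
          (Real.pi * (13 / 25) * (n + 2) / 4) ^ 2 := by
      rw [← mul_pow, pow_add]
      congr 2
      · push_cast
        field_simp
      · push_cast
        ring
    rw [e2]
    have h2 : ((n : ℝ) / 2 + 1) ^ 2 ≤ 3 * (Real.pi * (13 / 25) * (n + 2) / 4) ^ 2 := by
      have e3 : 3 * (Real.pi * (13 / 25) * ((n : ℝ) + 2) / 4) ^ 2 =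
          (3 * (13 / 25) ^ 2 / 4 * Real.pi ^ 2) * ((n : ℝ) / 2 + 1) ^ 2 := by ring
      rw [e3]
      have : (1 : ℝ) ≤ 3 * (13 / 25) ^ 2 / 4 * Real.pi ^ 2 := by nlinarith
      nlinarith [sq_nonneg ((n : ℝ) / 2 + 1)]
    have hX : 0 ≤ (Real.pi * (13 / 25) * n / 4) ^ n := by positivity
    calc ((n : ℝ) / 2 + 1) ^ 2 * Real.Gamma ((n : ℝ) / 2 + 1) ^ 2
        ≤ (3 * (Real.pi * (13 / 25) * (n + 2) / 4) ^ 2) * (Real.pi * (13 / 25) * n / 4) ^ n :=
          mul_le_mul h2 h (sq_nonneg _) (by positivity)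
      _ = (Real.pi * (13 / 25) * n / 4) ^ n * 3 * (Real.pi * (13 / 25) * (n + 2) / 4) ^ 2 := by ring
      _ ≤ _ := by
          apply mul_le_mul_of_nonneg_right _ (sq_nonneg _)
          exact mul_le_mul_of_nonneg_left h1 hX
  have h3 : Real.Gamma (((3 : ℕ) : ℝ) / 2 + 1) ^ 2 ≤
      (Real.pi * (13 / 25) * ((3 : ℕ) : ℝ) / 4) ^ 3 := by
    have e : Real.Gamma (((3 : ℕ) : ℝ) / 2 + 1) = 3 / 4 * √Real.pi := by
      rw [Real.Gamma_add_one (by norm_num), show ((3 : ℕ) : ℝ) / 2 = 1 / 2 + 1 by norm_num,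
        Real.Gamma_add_one (by norm_num), Real.Gamma_one_half_eq]
      ring
    rw [e, mul_pow, Real.sq_sqrt Real.pi_pos.le]
    have : (Real.pi * (13 / 25) * ((3 : ℕ) : ℝ) / 4) ^ 3 =
        Real.pi * ((39 / 100) ^ 3 * Real.pi ^ 2) := by push_cast; ring
    rw [this]
    nlinarith [Real.pi_pos]
  have h4 : Real.Gamma (((4 : ℕ) : ℝ) / 2 + 1) ^ 2 ≤
      (Real.pi * (13 / 25) * ((4 : ℕ) : ℝ) / 4) ^ 4 := by
    have e : Real.Gamma (((4 : ℕ) : ℝ) / 2 + 1) = 2 := by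
      have : ((4 : ℕ) : ℝ) / 2 + 1 = ((2 : ℕ) : ℝ) + 1 := by norm_num
      rw [this, Real.Gamma_nat_eq_factorial]
      norm_num
    rw [e]
    have : (Real.pi * (13 / 25) * ((4 : ℕ) : ℝ) / 4) ^ 4 = (13 / 25) ^ 4 * (Real.pi ^ 2) ^ 2 := by
      push_cast; ring
    rw [this]
    nlinarith
  intro n
  induction n using Nat.strong_induction_on with
  | _ n ih =>
    intro hn
    rcases Nat.lt_or_ge n 5 with h | h
    · interval_cases n
      · exact h3
      · exact h4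
    · obtain ⟨k, rfl⟩ := Nat.exists_eq_add_of_le' (show 2 ≤ n by omega)
      exact step k (by omega) (ih k (by omega) (by omega))

theorem inv_le_vol {n : ℕ} (hn : 3 ≤ n) (A : Matrix (Fin n) (Fin n) ℝ) (hA : A.det ≠ 0) :
    minSq A / |A.det| ^ ((2 : ℝ) / (n : ℝ)) ≤ 13 / 25 * n := by
  have hn0 : 0 < n := by omega
  have hn' : (0 : ℝ) < n := by exact_mod_cast hn0
  have hd : 0 < |A.det| := abs_pos.2 hA
  set m := minSq A with hm
  rcases (minSq_nonneg A).eq_or_lt with h0 | hpos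
  · rw [hm, ← h0, zero_div]
    positivity
  have hpack : Pool.Agent.H390R2.LP.IsPacking (Pool.Agent.H390R2.LP.lat A) (√m / 2) :=
    Pool.Agent.H390R2.LP.lat_packing A m hpos fun w hw => minSq_le A w hw
  have h1 := (Pool.Agent.H390R2.LP.density_lat hn0 A hA _ hpack).trans (upperDensity_le_one _ _)
  have : Nonempty (Fin n) := ⟨⟨0, hn0⟩⟩
  rw [EuclideanSpace.volume_ball, Fintype.card_fin] at h1
  have hG : 0 < Real.Gamma ((n : ℝ) / 2 + 1) := Real.Gamma_pos_of_pos (by positivity)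
  have h2 : (√m / 2) ^ n * (√Real.pi ^ n / Real.Gamma ((n : ℝ) / 2 + 1)) ≤ |A.det| := by
    rw [← ENNReal.ofReal_pow (by positivity), ← ENNReal.ofReal_mul (by positivity),
      ← ENNReal.ofReal_div_of_pos hd, ← ENNReal.ofReal_one,
      ENNReal.ofReal_le_ofReal_iff (by norm_num), div_le_one hd] at h1
    exact h1
  have h3 : (√m / 2) ^ n * √Real.pi ^ n ≤ |A.det| * Real.Gamma ((n : ℝ) / 2 + 1) := by
    rwa [mul_div_assoc', div_le_iff₀ hG] at h2
  have h4 : (m * Real.pi / 4) ^ n ≤ |A.det| ^ 2 * Real.Gamma ((n : ℝ) / 2 + 1) ^ 2 := by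
    have := pow_le_pow_left₀ (by positivity) h3 2
    have hm0 : 0 ≤ m := hpos.le
    have e : (√m / 2) ^ 2 * √Real.pi ^ 2 = m * Real.pi / 4 := by
      rw [div_pow, Real.sq_sqrt hm0, Real.sq_sqrt Real.pi_pos.le]
      ring
    calc (m * Real.pi / 4) ^ n = ((√m / 2) ^ n * √Real.pi ^ n) ^ 2 := by
          rw [← mul_pow, ← pow_mul, mul_comm n 2, pow_mul, mul_pow, e]
      _ ≤ _ := this
      _ = _ := by ring
  have h5 : (m * Real.pi / 4) ^ n ≤ |A.det| ^ 2 * (Real.pi * (13 / 25) * n / 4) ^ n :=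
    h4.trans (mul_le_mul_of_nonneg_left (gamma_bound n hn) (by positivity))
  have h6 : m ^ n ≤ |A.det| ^ 2 * (13 / 25 * n : ℝ) ^ n := by
    have e1 : (m * Real.pi / 4) ^ n = m ^ n * (Real.pi / 4) ^ n := by rw [← mul_pow]; ring
    have e2 : (Real.pi * (13 / 25) * n / 4) ^ n = (13 / 25 * n : ℝ) ^ n * (Real.pi / 4) ^ n := by
      rw [← mul_pow]; ring
    rw [e1, e2, ← mul_assoc] at h5
    exact le_of_mul_le_mul_right h5 (by positivity)
  refine le_of_pow_le_pow_left₀ hn0.ne' (by positivity) ?_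
  rw [pow_value hn0 m |A.det| hd, div_le_iff₀ (by positivity), mul_comm]
  exact h6

theorem hermite_le_vol {n : ℕ} (hn : 3 ≤ n) : hermite n ≤ 13 / 25 * n := by
  have : Nonempty {A : Matrix (Fin n) (Fin n) ℝ // A.det ≠ 0} := ⟨⟨1, by simp⟩⟩
  exact ciSup_le fun A => inv_le_vol hn A.1 A.2

theorem ratio_two : ratio 2 ≤ 1 / √3 := by
  unfold ratio
  rw [div_le_iff₀ (by norm_num)]
  refine hermite_two_le.trans (le_of_eq ?_)
  push_cast
  ring

theorem ratio_three {n : ℕ} (hn : 3 ≤ n) : ratio n ≤ 13 / 25 := by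
  unfold ratio
  have hn' : (0 : ℝ) < n := by
    have : 0 < n := by omega
    exact_mod_cast this
  rw [div_le_iff₀ hn']
  exact hermite_le_vol hn

theorem c_lt : (13 : ℝ) / 25 < 1 / √3 := by
  rw [div_lt_div_iff₀ (by norm_num) (by positivity)]
  have h : √3 < 25 / 13 := by
    rw [Real.sqrt_lt' (by norm_num)]
    norm_num
  linarith

theorem ratio_le {n : ℕ} (hn : 2 ≤ n) : ratio n ≤ 1 / √3 := by
  rcases Nat.lt_or_ge n 3 with h | h
  · have : n = 2 := by omega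
    subst this
    exact ratio_two
  · exact (ratio_three h).trans c_lt.le

end Pool.Agent.U837.TP
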