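import Pool.Agent.U837.TP.Ten
import Pool.Agent.U837.TP.Vol
import Pool.Agent.Results.MP_ef2672_gt.HermitePiSquared

/-!
# Tensor products of lattices of large dimension
-/

set_option autoImplicit false

namespace Pool.Agent.U837.TP

open Matrix Filter Topology
open Pool.Agent.H160R3.Herm

/-- the lattice `C ℤᴺ`, `N = m n`, has a sublattice of index `k` that is isometric to a tensor product
of a lattice of dimension `m` and a lattice of dimension `n` -/
def HasTensor {m n : ℕ} (C : Matrix (Fin (m * n)) (Fin (m * n)) ℝ) (k : ℝ) : Prop :=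
  ∃ (A : Matrix (Fin m) (Fin m) ℝ) (B : Matrix (Fin n) (Fin n) ℝ), A.det ≠ 0 ∧ B.det ≠ 0 ∧
    HasSub C (tens A B) k

/-- the upper limit of `γ_n / n` -/
noncomputable def upper : ℝ := limsup (fun n : ℕ => hermite n / n) atTop

/-- the lower limit of `γ_n / n` -/
noncomputable def lower : ℝ := liminf (fun n : ℕ => hermite n / n) atTop

theorem hbU : IsBoundedUnder (· ≤ ·) atTop ratio := isBoundedUnder_of ⟨1, ratio_le_one⟩
theorem hbL : IsBoundedUnder (· ≥ ·) atTop ratio := isBoundedUnder_of ⟨0, ratio_nonneg⟩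

theorem upper_eq : upper = limsup ratio atTop := rfl
theorem lower_eq : lower = liminf ratio atTop := rfl

theorem lower_pos : 0 < lower := by
  have h1 : (1 / 144 : ℝ) ≤ lower := by
    rw [lower_eq]
    refine le_liminf_of_le hbU.isCoboundedUnder_ge ?_
    filter_upwards [eventually_gt_atTop 0] with n hn
    exact ratio_ge hn
  linarith

theorem lower_le_upper : lower ≤ upper := liminf_le_limsup hbU hbL

theorem upper_pos : 0 < upper := lt_of_lt_of_le lower_pos lower_le_upper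

theorem upper_le : upper ≤ 1 / Real.pi ^ 2 :=
  (Pool.Agent.Results.MP_ef2672_gt.HermitePiSquared.result).1

theorem ev_upper {ε : ℝ} (hε : 0 < ε) : ∀ᶠ n : ℕ in atTop, ratio n ≤ upper + ε :=
  (eventually_lt_of_limsup_lt (show limsup ratio atTop < upper + ε by
    rw [← upper_eq]; linarith) hbU).mono fun _ h => h.le

theorem ev_lower {ε : ℝ} (hε : 0 < ε) : ∀ᶠ n : ℕ in atTop, lower - ε ≤ ratio n :=
  (eventually_lt_of_lt_liminf (show lower - ε < liminf ratio atTop by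
    rw [← lower_eq]; linarith) hbL).mono fun _ h => h.le

theorem hermite_ratio {n : ℕ} (hn : 0 < n) : hermite n = ratio n * n := by
  have : (0 : ℝ) < n := by exact_mod_cast hn
  unfold ratio
  field_simp

theorem k_ge_one {m n : ℕ} {C : Matrix (Fin (m * n)) (Fin (m * n)) ℝ} {k : ℝ} (hm : 0 < m)
    (hn : 0 < n) (hC : C.det ≠ 0) (h : HasTensor C k) : 1 ≤ k := by
  obtain ⟨A, B, hA, hB, h⟩ := h
  have h1 := (main_ineq hm hn hA hB hC h).1
  obtain ⟨Q, U, -, -, rfl⟩ := h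
  have h2 : U.det ≠ 0 := by
    intro h0
    rw [h0] at h1
    simp at h1
  rw [← Int.cast_abs]
  exact_mod_cast Int.one_le_abs h2

theorem inv_le_ratio {m n : ℕ} (hm : 0 < m) (hn : 0 < n)
    {C : Matrix (Fin (m * n)) (Fin (m * n)) ℝ} {k : ℝ} (hC : C.det ≠ 0) (h : HasTensor C k) :
    Pool.Agent.R834.HA.inv C ≤
      k ^ ((2 : ℝ) / ((m * n : ℕ) : ℝ)) * (ratio m * ratio n) * ((m * n : ℕ) : ℝ) := by
  obtain ⟨A, B, hA, hB, h⟩ := h
  obtain ⟨h1, h2⟩ := main_ineq hm hn hA hB hC h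
  refine h2.trans ?_
  rw [mul_assoc]
  refine mul_le_mul_of_nonneg_left ?_ (Real.rpow_nonneg h1.le _)
  have hAi : Pool.Agent.R834.HA.inv A ≤ ratio m * m := by
    rw [← hermite_ratio hm]
    exact le_hermite hm A hA
  have hBi : Pool.Agent.R834.HA.inv B ≤ ratio n * n := by
    rw [← hermite_ratio hn]
    exact le_hermite hn B hB
  calc Pool.Agent.R834.HA.inv A * Pool.Agent.R834.HA.inv B ≤ (ratio m * m) * (ratio n * n) :=
        mul_le_mul hAi hBi (Pool.Agent.R834.HA.inv_nonneg B)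
          (mul_nonneg (ratio_nonneg m) (Nat.cast_nonneg m))
    _ = _ := by push_cast; ring

/-- the product of the ratios in large dimension -/
theorem prod_bound {U c : ℝ} (hU : ∀ᶠ n : ℕ in atTop, ratio n ≤ U) {s : ℕ}
    (hc : ∀ n ≥ s, ratio n ≤ c) :
    ∃ N0 : ℕ, ∀ m n : ℕ, s ≤ m → s ≤ n → N0 ≤ m * n → ratio m * ratio n ≤ c * U := by
  obtain ⟨n0, hn0⟩ := eventually_atTop.1 hU
  refine ⟨n0 * n0, fun m n hm hn hN => ?_⟩
  rcases le_or_gt n0 n with h | h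
  · exact mul_le_mul (hc m hm) (hn0 n h) (ratio_nonneg n) ((ratio_nonneg m).trans (hc m hm))
  · have h2 : n0 ≤ m := by
      by_contra hlt
      push Not at hlt
      have : m * n < n0 * n0 := Nat.mul_lt_mul'' hlt h
      omega
    rw [mul_comm]
    exact mul_le_mul (hc n hn) (hn0 m h2) (ratio_nonneg m) ((ratio_nonneg n).trans (hc n hn))

/-- the general bound in large dimension -/
theorem asym {c : ℝ} {s : ℕ} (hs : 0 < s) (hc0 : 0 < c) (hc : ∀ n ≥ s, ratio n ≤ c) {ε : ℝ}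
    (hε : 0 < ε) :
    ∃ N0 : ℕ, ∀ m n : ℕ, s ≤ m → s ≤ n → N0 ≤ m * n →
      ∀ (C : Matrix (Fin (m * n)) (Fin (m * n)) ℝ) (k : ℝ), C.det ≠ 0 → HasTensor C k →
        Pool.Agent.R834.HA.inv C ≤
          k ^ ((2 : ℝ) / ((m * n : ℕ) : ℝ)) * (c * upper + ε) * ((m * n : ℕ) : ℝ) := by
  obtain ⟨N0, hN0⟩ := prod_bound (ev_upper (show 0 < ε / c by positivity)) hc
  refine ⟨N0, fun m n hm hn hN C k hC h => ?_⟩
  have hk : 0 < k := lt_of_lt_of_le one_pos (k_ge_one (by omega) (by omega) hC h)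
  refine (inv_le_ratio (by omega) (by omega) hC h).trans ?_
  refine mul_le_mul_of_nonneg_right ?_ (Nat.cast_nonneg _)
  refine mul_le_mul_of_nonneg_left ?_ (Real.rpow_nonneg hk.le _)
  refine (hN0 m n hm hn hN).trans (le_of_eq ?_)
  field_simp

theorem rpow_le_sq {N : ℕ} (hN : 0 < N) {k q : ℝ} (hk : 0 ≤ k) (hq : 0 ≤ q) (h : k ≤ q ^ N) :
    k ^ ((2 : ℝ) / (N : ℝ)) ≤ q ^ 2 := by
  have hN' : (0 : ℝ) < N := by exact_mod_cast hN
  calc k ^ ((2 : ℝ) / (N : ℝ)) ≤ (q ^ N) ^ ((2 : ℝ) / (N : ℝ)) :=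
        Real.rpow_le_rpow hk h (by positivity)
    _ = q ^ 2 := by
        rw [← Real.rpow_natCast, ← Real.rpow_mul hq, mul_div_cancel₀ _ hN'.ne']
        norm_cast

/-- numerical consequence -/
theorem numeric {c q : ℝ} {s : ℕ} (hs : 0 < s) (hc0 : 0 < c) (hc : ∀ n ≥ s, ratio n ≤ c)
    (hq : 0 < q) (hlt : q ^ 2 * (c * (1 / Real.pi ^ 2)) < 1 / (2 * Real.pi * Real.exp 1)) :
    ∃ N0 : ℕ, ∀ m n : ℕ, s ≤ m → s ≤ n → N0 ≤ m * n →
      ∀ (C : Matrix (Fin (m * n)) (Fin (m * n)) ℝ) (k : ℝ), C.det ≠ 0 → HasTensor C k →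
        k ≤ q ^ (m * n) →
        Pool.Agent.R834.HA.inv C < ((m * n : ℕ) : ℝ) / (2 * Real.pi * Real.exp 1) := by
  set d := 1 / (2 * Real.pi * Real.exp 1) - q ^ 2 * (c * (1 / Real.pi ^ 2)) with hd
  have hd0 : 0 < d := by rw [hd]; linarith
  obtain ⟨N0, hN0⟩ := asym hs hc0 hc (show 0 < d / (2 * q ^ 2) by positivity)
  refine ⟨N0, fun m n hm hn hN C k hC h hkq => ?_⟩
  have hm0 : 0 < m := by omega
  have hn0 : 0 < n := by omega
  have hN0' : 0 < m * n := Nat.mul_pos hm0 hn0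
  have hNr : (0 : ℝ) < ((m * n : ℕ) : ℝ) := by exact_mod_cast hN0'
  have hk : 0 < k := lt_of_lt_of_le one_pos (k_ge_one hm0 hn0 hC h)
  have h1 := rpow_le_sq hN0' hk.le hq.le hkq
  have h2 := hN0 m n hm hn hN C k hC h
  have hX : 0 ≤ c * upper + d / (2 * q ^ 2) := by
    have := upper_pos
    positivity
  have h3 : k ^ ((2 : ℝ) / ((m * n : ℕ) : ℝ)) * (c * upper + d / (2 * q ^ 2)) ≤
      q ^ 2 * (c * (1 / Real.pi ^ 2)) + d / 2 := by
    calc k ^ ((2 : ℝ) / ((m * n : ℕ) : ℝ)) * (c * upper + d / (2 * q ^ 2))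
        ≤ q ^ 2 * (c * upper + d / (2 * q ^ 2)) := mul_le_mul_of_nonneg_right h1 hX
      _ = q ^ 2 * (c * upper) + d / 2 := by field_simp
      _ ≤ _ := by
          have := mul_le_mul_of_nonneg_left upper_le hc0.le
          nlinarith [mul_le_mul_of_nonneg_left this (sq_nonneg q)]
  have h4 : q ^ 2 * (c * (1 / Real.pi ^ 2)) + d / 2 < 1 / (2 * Real.pi * Real.exp 1) := by
    rw [hd]
    linarith
  calc Pool.Agent.R834.HA.inv C ≤ _ := h2
    _ ≤ (q ^ 2 * (c * (1 / Real.pi ^ 2)) + d / 2) * ((m * n : ℕ) : ℝ) :=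
        mul_le_mul_of_nonneg_right h3 hNr.le
    _ < 1 / (2 * Real.pi * Real.exp 1) * ((m * n : ℕ) : ℝ) := mul_lt_mul_of_pos_right h4 hNr
    _ = _ := by ring

/-- near-optimal lattices -/
theorem near {κ ε : ℝ} (hκ : 0 < κ) (hε : 0 < ε) :
    ∃ N0 : ℕ, ∀ m n : ℕ, 2 ≤ m → 2 ≤ n → N0 ≤ m * n →
      ∀ (C : Matrix (Fin (m * n)) (Fin (m * n)) ℝ) (k : ℝ), C.det ≠ 0 → HasTensor C k →
        κ * hermite (m * n) ≤ Pool.Agent.R834.HA.inv C →
        √3 * κ * lower / upper - ε ≤ k ^ ((2 : ℝ) / ((m * n : ℕ) : ℝ)) := by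
  have hu := upper_pos
  have h3 : (0 : ℝ) < √3 := by positivity
  -- choice of the error
  have hlim : Tendsto (fun δ : ℝ => √3 * κ * (lower - δ) / (upper + √3 * δ)) (𝓝[>] 0)
      (𝓝 (√3 * κ * (lower - 0) / (upper + √3 * 0))) := by
    apply tendsto_nhdsWithin_of_tendsto_nhds
    apply ContinuousAt.tendsto
    apply ContinuousAt.div (by fun_prop) (by fun_prop)
    simp only [mul_zero, add_zero]
    exact hu.ne'
  simp only [mul_zero, add_zero, sub_zero] at hlim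
  obtain ⟨δ, hδ0, hδ⟩ : ∃ δ : ℝ, 0 < δ ∧
      √3 * κ * lower / upper - ε < √3 * κ * (lower - δ) / (upper + √3 * δ) := by
    have h1 := hlim.eventually_const_lt (show √3 * κ * lower / upper - ε < √3 * κ * lower / upper by
      linarith)
    obtain ⟨δ, h1, h2⟩ := (h1.and self_mem_nhdsWithin).exists
    exact ⟨δ, h2, h1⟩
  obtain ⟨N0, hN0⟩ := asym (s := 2) (c := 1 / √3) (by norm_num) (by positivity)
    (fun n hn => ratio_le hn) hδ0
  obtain ⟨N1, hN1⟩ := eventually_atTop.1 (ev_lower hδ0)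
  refine ⟨max N0 N1, fun m n hm hn hN C k hC h hκC => ?_⟩
  have hm0 : 0 < m := by omega
  have hn0 : 0 < n := by omega
  have hN0' : 0 < m * n := Nat.mul_pos hm0 hn0
  have hNr : (0 : ℝ) < ((m * n : ℕ) : ℝ) := by exact_mod_cast hN0'
  have h2 := hN0 m n hm hn ((le_max_left _ _).trans hN) C k hC h
  have h4 := hN1 (m * n) ((le_max_right _ _).trans hN)
  set K := k ^ ((2 : ℝ) / ((m * n : ℕ) : ℝ)) with hK
  have h5 : κ * (lower - δ) * ((m * n : ℕ) : ℝ) ≤ K * (1 / √3 * upper + δ) * ((m * n : ℕ) : ℝ) := by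
    refine le_trans ?_ (hκC.trans h2)
    rw [hermite_ratio hN0', mul_assoc]
    exact mul_le_mul_of_nonneg_left (mul_le_mul_of_nonneg_right h4 hNr.le) hκ.le
  have h6 : κ * (lower - δ) ≤ K * (1 / √3 * upper + δ) := le_of_mul_le_mul_right h5 hNr
  refine hδ.le.trans ?_
  rw [div_le_iff₀ (by positivity)]
  have h7 := mul_le_mul_of_nonneg_left h6 h3.le
  have e1 : √3 * (K * (1 / √3 * upper + δ)) = K * (upper + √3 * δ) := by
    field_simp
  rw [e1] at h7
  linarith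

/-- asymptotically optimal lattices, if the limit exists -/
theorem of_limit {L : ℝ} (hL : Tendsto (fun n : ℕ => hermite n / n) atTop (𝓝 L)) {δ : ℝ}
    (hδ : 0 < δ) :
    ∃ η : ℝ, 0 < η ∧ ∃ N0 : ℕ, ∀ m n : ℕ, 2 ≤ m → 2 ≤ n → N0 ≤ m * n →
      ∀ (C : Matrix (Fin (m * n)) (Fin (m * n)) ℝ) (k : ℝ), C.det ≠ 0 → HasTensor C k →
        (1 - η) * hermite (m * n) ≤ Pool.Agent.R834.HA.inv C →
        √3 - δ ≤ k ^ ((2 : ℝ) / ((m * n : ℕ) : ℝ)) := by
  have e1 : upper = L := hL.limsup_eq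
  have e2 : lower = L := hL.liminf_eq
  have hL0 : 0 < L := e1 ▸ upper_pos
  refine ⟨min (1 / 2) (δ / 4), by positivity, ?_⟩
  set η := min (1 / 2 : ℝ) (δ / 4) with hη
  have hη1 : η ≤ 1 / 2 := min_le_left _ _
  have hη2 : η ≤ δ / 4 := min_le_right _ _
  obtain ⟨N0, hN0⟩ := near (κ := 1 - η) (by linarith) (show 0 < δ / 2 by positivity)
  refine ⟨N0, fun m n hm hn hN C k hC h hκC => ?_⟩
  have h1 := hN0 m n hm hn hN C k hC h hκC
  rw [e1, e2, mul_div_assoc, div_self hL0.ne', mul_one] at h1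
  have h3 : √3 ≤ 2 := by
    rw [Real.sqrt_le_left (by norm_num)]
    norm_num
  have h3' : 0 ≤ √3 := Real.sqrt_nonneg 3
  have hη0 : 0 < η := by rw [hη]; positivity
  nlinarith

end Pool.Agent.U837.TP
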