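import Pool.Agent.H160R3.Herm.Main
import Pool.Agent.H390R2.LP.Hermite

/-!
# Hermite's constant in dimension two, and the volume bound in all dimensions at least three
-/

set_option autoImplicit false

namespace Pool.Agent.U837.TP

open Matrix MeasureTheory
open Pool.Agent.H160R3.Herm

theorem two_aux (a b c d : ℝ) :
    3 / 4 * minSq !![a, b; c, d] ^ 2 ≤ (a * d - b * c) ^ 2 := by
  set A : Matrix (Fin 2) (Fin 2) ℝ := !![a, b; c, d] with hA
  set μ := minSq A with hμ
  have hμ0 : 0 ≤ μ := minSq_nonneg A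
  rcases hμ0.eq_or_lt with h0 | hpos
  · rw [← h0]
    have := sq_nonneg (a * d - b * c)
    linarith
  -- the form
  have hq : ∀ w : Fin 2 → ℤ, ∑ i, (A.mulVec (fun j => (w j : ℝ))) i ^ 2 =
      (a * w 0 + b * w 1) ^ 2 + (c * w 0 + d * w 1) ^ 2 := by
    intro w
    simp [hA, Fin.sum_univ_two, mulVec, dotProduct]
  have hmin : ∀ w : Fin 2 → ℤ, w ≠ 0 → μ ≤ (a * w 0 + b * w 1) ^ 2 + (c * w 0 + d * w 1) ^ 2 := by
    intro w hw
    rw [← hq]
    exact minSq_le A w hw
  have key : ∀ ε : ℝ, 0 < ε → ε < 3 → (3 - ε) / 4 * μ ^ 2 ≤ (a * d - b * c) ^ 2 := by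
    intro ε hε hε3
    have hlt : μ < (1 + ε) * μ := by nlinarith
    have hne : Nonempty {w : Fin 2 → ℤ // w ≠ 0} :=
      ⟨⟨fun _ => 1, fun h => by simpa using congrFun h 0⟩⟩
    obtain ⟨⟨w, hw⟩, hw2⟩ := exists_lt_of_ciInf_lt (hμ ▸ hlt :
      (⨅ w : {w : Fin 2 → ℤ // w ≠ 0}, ∑ i, (A.mulVec (fun j => (w.1 j : ℝ))) i ^ 2) < _)
    simp only at hw2
    rw [hq] at hw2
    have hw1 := hmin w hw
    -- `w` is primitive
    have hcop : IsCoprime (w 0) (w 1) := by
      rw [Int.isCoprime_iff_gcd_eq_one]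
      set g := Int.gcd (w 0) (w 1) with hg
      have hg0 : g ≠ 0 := by
        intro h
        rw [hg, Int.gcd_eq_zero_iff] at h
        apply hw
        funext i
        fin_cases i
        · exact h.1
        · exact h.2
      obtain ⟨x, hx⟩ : (g : ℤ) ∣ w 0 := Int.gcd_dvd_left ..
      obtain ⟨y, hy⟩ : (g : ℤ) ∣ w 1 := Int.gcd_dvd_right ..
      have hxy : (![x, y] : Fin 2 → ℤ) ≠ 0 := by
        intro h
        apply hw
        have h0 : x = 0 := by simpa using congrFun h 0
        have h1 : y = 0 := by simpa using congrFun h 1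
        funext i
        fin_cases i
        · simp [hx, h0]
        · simp [hy, h1]
      have h1 := hmin _ hxy
      simp only [Matrix.cons_val_zero, Matrix.cons_val_one] at h1
      have h2 : (a * w 0 + b * w 1) ^ 2 + (c * w 0 + d * w 1) ^ 2 =
          (g : ℝ) ^ 2 * ((a * x + b * y) ^ 2 + (c * x + d * y) ^ 2) := by
        rw [hx, hy]
        push_cast
        ring
      by_contra hne
      have hg2 : (2 : ℝ) ≤ g := by
        have : 2 ≤ g := by omega
        exact_mod_cast this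
      have h3 : (4 : ℝ) ≤ (g : ℝ) ^ 2 := by nlinarith
      rw [h2] at hw2
      nlinarith
    obtain ⟨p, q, hpq⟩ := hcop
    -- p * w 0 + q * w 1 = 1; take u = (-q, p)
    set s := (a * w 0 + b * w 1) ^ 2 + (c * w 0 + d * w 1) ^ 2 with hs
    have hs0 : 0 < s := lt_of_lt_of_le hpos hw1
    set β := (a * w 0 + b * w 1) * (a * (-q) + b * p) + (c * w 0 + d * w 1) * (c * (-q) + d * p)
      with hβ
    set t : ℤ := round (-β / s) with ht
    have ht2 : |β + t * s| ≤ s / 2 := by
      have h1 := abs_sub_round (-β / s)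
      have h2 : β + t * s = -((-β / s - t) * s) := by
        field_simp
        ring
      rw [h2, abs_neg, abs_mul, abs_of_pos hs0]
      calc |-β / s - (t : ℝ)| * s ≤ 1 / 2 * s := mul_le_mul_of_nonneg_right h1 hs0.le
        _ = s / 2 := by ring
    have hu : (![-q + t * w 0, p + t * w 1] : Fin 2 → ℤ) ≠ 0 := by
      intro h
      have h0 : -q + t * w 0 = 0 := by simpa using congrFun h 0
      have h1 : p + t * w 1 = 0 := by simpa using congrFun h 1
      have : (p * w 0 + q * w 1 : ℤ) = 0 := by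
        have hp : p = -(t * w 1) := by linarith
        have hq' : q = t * w 0 := by linarith
        rw [hp, hq']
        ring
      rw [hpq] at this
      exact one_ne_zero this
    have h4 := hmin _ hu
    simp only [Matrix.cons_val_zero, Matrix.cons_val_one] at h4
    push_cast at h4
    have hpq' : (p : ℝ) * w 0 + q * w 1 = 1 := by exact_mod_cast hpq
    set Qu := (a * (-(q : ℝ) + t * w 0) + b * (p + t * w 1)) ^ 2 +
      (c * (-(q : ℝ) + t * w 0) + d * (p + t * w 1)) ^ 2 with hQu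
    have h5 : s * Qu = (β + t * s) ^ 2 + (a * d - b * c) ^ 2 * ((p : ℝ) * w 0 + q * w 1) ^ 2 := by
      rw [hs, hQu, hβ]
      ring
    rw [hpq', one_pow, mul_one] at h5
    have h6 : (β + t * s) ^ 2 ≤ s ^ 2 / 4 := by
      have := sq_le_sq' (by linarith [abs_le.1 ht2 |>.1]) (abs_le.1 ht2 |>.2)
      nlinarith
    have h7 : s * μ ≤ s * Qu := mul_le_mul_of_nonneg_left h4 hs0.le
    have h8 : s * (μ - s / 4) ≤ (a * d - b * c) ^ 2 := by nlinarith
    have h9 : (3 - ε) / 4 * μ ^ 2 ≤ s * (μ - s / 4) := by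
      have e1 : 0 ≤ s - μ := by linarith
      have e2 : 0 ≤ (1 + ε) * μ - s := by linarith
      nlinarith [mul_nonneg e1 e2, mul_nonneg hpos.le e1, mul_nonneg hpos.le e2]
    linarith
  have hl : Filter.Tendsto (fun ε : ℝ => (3 - ε) / 4 * μ ^ 2) (nhdsWithin 0 (Set.Ioi 0))
      (nhds ((3 - 0) / 4 * μ ^ 2)) := by
    apply tendsto_nhdsWithin_of_tendsto_nhds
    have : Continuous fun ε : ℝ => (3 - ε) / 4 * μ ^ 2 := by fun_prop
    exact this.tendsto 0
  have := le_of_tendsto hl (by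
    filter_upwards [Ioo_mem_nhdsGT (show (0 : ℝ) < 3 by norm_num)] with ε hε
    exact key ε hε.1 hε.2)
  linarith

/-- Hermite's constant in dimension two -/
theorem hermite_two_le : hermite 2 ≤ 2 / √3 := by
  have : Nonempty {A : Matrix (Fin 2) (Fin 2) ℝ // A.det ≠ 0} := ⟨⟨1, by simp⟩⟩
  refine ciSup_le ?_
  rintro ⟨A, hA⟩
  have hAe : A = !![A 0 0, A 0 1; A 1 0, A 1 1] := Matrix.eta_fin_two A
  have hd : A.det = A 0 0 * A 1 1 - A 0 1 * A 1 0 := Matrix.det_fin_two A
  have h1 := two_aux (A 0 0) (A 0 1) (A 1 0) (A 1 1)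
  rw [← hAe, ← hd] at h1
  have hpos : 0 < |A.det| := abs_pos.2 hA
  have h2 : ((2 : ℝ) / ((2 : ℕ) : ℝ)) = 1 := by norm_num
  simp only [h2, Real.rpow_one]
  rw [div_le_div_iff₀ hpos (by positivity)]
  refine le_of_sq_le_sq ?_ (by positivity)
  rw [mul_pow, mul_pow, sq_abs, Real.sq_sqrt (by norm_num)]
  nlinarith

end Pool.Agent.U837.TP
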