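import Pool.Agent.R834.HA.Split

/-!
# Tensor products of lattices and Hermite invariants
-/

set_option autoImplicit false

namespace Pool.Agent.U837.TP

open Matrix
open Pool.Agent.H160R3.Herm
open Pool.Agent.R834.HA (inv inv_nonneg inv_pow)
open scoped Kronecker

/-- the matrix of the tensor product of the lattices `A ℤᵐ` and `B ℤⁿ` -/
noncomputable def tens {m n : ℕ} (A : Matrix (Fin m) (Fin m) ℝ) (B : Matrix (Fin n) (Fin n) ℝ) :
    Matrix (Fin (m * n)) (Fin (m * n)) ℝ :=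
  Matrix.reindex finProdFinEquiv finProdFinEquiv (A ⊗ₖ B)

theorem det_tens {m n : ℕ} (A : Matrix (Fin m) (Fin m) ℝ) (B : Matrix (Fin n) (Fin n) ℝ) :
    (tens A B).det = A.det ^ n * B.det ^ m := by
  unfold tens
  rw [Matrix.det_reindex_self, Matrix.det_kronecker]
  simp

theorem mulVec_tens {m n : ℕ} (A : Matrix (Fin m) (Fin m) ℝ) (B : Matrix (Fin n) (Fin n) ℝ)
    (x : Fin m → ℝ) (y : Fin n → ℝ) (k : Fin (m * n)) :
    (tens A B).mulVec (fun l => x (finProdFinEquiv.symm l).1 * y (finProdFinEquiv.symm l).2) k =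
      A.mulVec x (finProdFinEquiv.symm k).1 * B.mulVec y (finProdFinEquiv.symm k).2 := by
  simp only [mulVec, dotProduct, tens, Matrix.reindex_apply, Matrix.submatrix_apply,
    Matrix.kroneckerMap_apply]
  rw [Finset.sum_mul_sum, ← Finset.sum_product', Finset.univ_product_univ]
  refine Fintype.sum_equiv finProdFinEquiv.symm _ _ fun l => ?_
  ring

theorem sum_tens {m n : ℕ} (A : Matrix (Fin m) (Fin m) ℝ) (B : Matrix (Fin n) (Fin n) ℝ)
    (x : Fin m → ℤ) (y : Fin n → ℤ) :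
    ∑ k, ((tens A B).mulVec (fun l =>
      ((x (finProdFinEquiv.symm l).1 * y (finProdFinEquiv.symm l).2 : ℤ) : ℝ)) k) ^ 2 =
      (∑ i, A.mulVec (fun j => (x j : ℝ)) i ^ 2) * ∑ i, B.mulVec (fun j => (y j : ℝ)) i ^ 2 := by
  have h1 : (fun l : Fin (m * n) =>
      ((x (finProdFinEquiv.symm l).1 * y (finProdFinEquiv.symm l).2 : ℤ) : ℝ)) =
      fun l => (fun j => (x j : ℝ)) (finProdFinEquiv.symm l).1 *
        (fun j => (y j : ℝ)) (finProdFinEquiv.symm l).2 := by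
    funext l
    push_cast
    rfl
  rw [h1, Finset.sum_mul_sum, ← Finset.sum_product', Finset.univ_product_univ]
  refine Fintype.sum_equiv finProdFinEquiv.symm _ _ fun l => ?_
  exact (congrArg (fun z => z ^ 2) (mulVec_tens A B (fun j => (x j : ℝ)) (fun j => (y j : ℝ))
    l)).trans (mul_pow _ _ _)

theorem minSq_tens_le {m n : ℕ} (hm : 0 < m) (hn : 0 < n) (A : Matrix (Fin m) (Fin m) ℝ)
    (B : Matrix (Fin n) (Fin n) ℝ) : minSq (tens A B) ≤ minSq A * minSq B := by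
  have hneA : Nonempty {w : Fin m → ℤ // w ≠ 0} :=
    ⟨⟨fun _ => 1, fun h => by simpa using congrFun h ⟨0, hm⟩⟩⟩
  have hneB : Nonempty {w : Fin n → ℤ // w ≠ 0} :=
    ⟨⟨fun _ => 1, fun h => by simpa using congrFun h ⟨0, hn⟩⟩⟩
  have key : ∀ (x : {w : Fin m → ℤ // w ≠ 0}) (y : {w : Fin n → ℤ // w ≠ 0}),
      minSq (tens A B) ≤ (∑ i, A.mulVec (fun j => (x.1 j : ℝ)) i ^ 2) *
        ∑ i, B.mulVec (fun j => (y.1 j : ℝ)) i ^ 2 := by
    intro x y
    rw [← sum_tens]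
    refine minSq_le (tens A B) (fun l => x.1 (finProdFinEquiv.symm l).1 *
      y.1 (finProdFinEquiv.symm l).2) ?_
    intro h
    obtain ⟨i, hi⟩ := Function.ne_iff.1 x.2
    obtain ⟨j, hj⟩ := Function.ne_iff.1 y.2
    have h2 := congrFun h (finProdFinEquiv (i, j))
    simp only [Equiv.symm_apply_apply, Pi.zero_apply, mul_eq_zero] at h2
    rcases h2 with h2 | h2
    · exact hi h2
    · exact hj h2
  have h1 : ∀ x : {w : Fin m → ℤ // w ≠ 0}, minSq (tens A B) ≤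
      (∑ i, A.mulVec (fun j => (x.1 j : ℝ)) i ^ 2) * minSq B := by
    intro x
    have h0 : (0 : ℝ) ≤ ∑ i, A.mulVec (fun j => (x.1 j : ℝ)) i ^ 2 :=
      Finset.sum_nonneg fun _ _ => sq_nonneg _
    unfold minSq at *
    rw [Real.mul_iInf_of_nonneg h0]
    exact le_ciInf fun y => key x y
  have h0 : 0 ≤ minSq B := minSq_nonneg B
  conv_rhs => rw [show minSq A = ⨅ w : {w : Fin m → ℤ // w ≠ 0},
    ∑ i, (Matrix.mulVec A (fun j => (w.1 j : ℝ))) i ^ 2 from rfl]
  rw [Real.iInf_mul_of_nonneg h0]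
  exact le_ciInf h1

theorem rpow_tens {m n : ℕ} (hm : 0 < m) (hn : 0 < n) {a b : ℝ} (ha : 0 < a) (hb : 0 < b) :
    (a ^ n * b ^ m) ^ ((2 : ℝ) / ((m * n : ℕ) : ℝ)) =
      a ^ ((2 : ℝ) / (m : ℝ)) * b ^ ((2 : ℝ) / (n : ℝ)) := by
  have hm' : (m : ℝ) ≠ 0 := by positivity
  have hn' : (n : ℝ) ≠ 0 := by positivity
  rw [Real.mul_rpow (by positivity) (by positivity), ← Real.rpow_natCast, ← Real.rpow_natCast,
    ← Real.rpow_mul ha.le, ← Real.rpow_mul hb.le]
  congr 2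
  · push_cast
    field_simp
  · push_cast
    field_simp

theorem inv_tens_le {m n : ℕ} (hm : 0 < m) (hn : 0 < n) (A : Matrix (Fin m) (Fin m) ℝ)
    (B : Matrix (Fin n) (Fin n) ℝ) (hA : A.det ≠ 0) (hB : B.det ≠ 0) :
    inv (tens A B) ≤ inv A * inv B := by
  have ha : 0 < |A.det| := abs_pos.2 hA
  have hb : 0 < |B.det| := abs_pos.2 hB
  unfold Pool.Agent.R834.HA.inv
  rw [det_tens, abs_mul, abs_pow, abs_pow, rpow_tens hm hn ha hb, div_mul_div_comm]
  exact div_le_div_of_nonneg_right (minSq_tens_le hm hn A B) (by positivity)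

/-- the lattice `C ℤᴺ` has a sublattice of index `k` that is isometric to `T ℤᴺ` -/
def HasSub {N : ℕ} (C T : Matrix (Fin N) (Fin N) ℝ) (k : ℝ) : Prop :=
  ∃ (Q : Matrix (Fin N) (Fin N) ℝ) (U : Matrix (Fin N) (Fin N) ℤ), Qᵀ * Q = 1 ∧
    C * U.map (fun z : ℤ => (z : ℝ)) = Q * T ∧ |(U.det : ℝ)| = k

theorem sum_orth {N : ℕ} {Q : Matrix (Fin N) (Fin N) ℝ} (hQ : Qᵀ * Q = 1) (v : Fin N → ℝ) :
    ∑ i, Q.mulVec v i ^ 2 = ∑ i, v i ^ 2 := by
  rw [Pool.Agent.R834.HA.sum_sq, hQ, one_mulVec]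
  simp [dotProduct, sq]

theorem inv_le_of_hasSub {N : ℕ} (hN : 0 < N) {C T : Matrix (Fin N) (Fin N) ℝ} {k : ℝ}
    (hC : C.det ≠ 0) (hT : T.det ≠ 0) (h : HasSub C T k) :
    0 < k ∧ inv C ≤ k ^ ((2 : ℝ) / (N : ℝ)) * inv T := by
  obtain ⟨Q, U, hQ, hU, rfl⟩ := h
  have hQd : |Q.det| = 1 := by
    have h1 : Q.det * Q.det = 1 := by
      have := congrArg Matrix.det hQ
      rwa [det_mul, det_transpose, det_one] at this
    have h2 : |Q.det| * |Q.det| = 1 := by rw [← abs_mul, h1, abs_one]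
    nlinarith [abs_nonneg Q.det]
  have hUd : (U.map (fun z : ℤ => (z : ℝ))).det = (U.det : ℝ) := by
    have := (Int.castRingHom ℝ).map_det U
    simpa [RingHom.mapMatrix_apply] using this.symm
  have hdet : |C.det| * |(U.det : ℝ)| = |T.det| := by
    have := congrArg Matrix.det hU
    rw [det_mul, det_mul, hUd] at this
    rw [← abs_mul, this, abs_mul, hQd, one_mul]
  have hc : 0 < |C.det| := abs_pos.2 hC
  have ht : 0 < |T.det| := abs_pos.2 hT
  have hu : 0 < |(U.det : ℝ)| := by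
    rcases (abs_nonneg (U.det : ℝ)).lt_or_eq with h | h
    · exact h
    · rw [← h, mul_zero] at hdet
      exact absurd hdet.symm ht.ne'
  refine ⟨hu, ?_⟩
  have hU0 : (U.map (fun z : ℤ => (z : ℝ))).det ≠ 0 := by
    rw [hUd]
    exact abs_pos.1 hu
  have hmin : minSq C ≤ minSq T := by
    refine le_minSq hN T _ fun w hw => ?_
    have h1 : ∑ i, T.mulVec (fun j => (w j : ℝ)) i ^ 2 =
        ∑ i, C.mulVec (fun j => ((U.mulVec w j : ℤ) : ℝ)) i ^ 2 := by
      rw [← sum_orth hQ, mulVec_mulVec, ← hU, ← mulVec_mulVec]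
      congr 1
      funext i
      congr 2
      funext j
      simp [mulVec, dotProduct]
    rw [h1]
    refine minSq_le C _ fun h0 => hw ?_
    have h2 : (U.map (fun z : ℤ => (z : ℝ))).mulVec (fun j => (w j : ℝ)) = 0 := by
      funext i
      have := congrFun h0 i
      simp only [mulVec, dotProduct, Pi.zero_apply] at this
      simp only [mulVec, dotProduct, Matrix.map_apply, Pi.zero_apply]
      exact_mod_cast this
    have h3 := Matrix.eq_zero_of_mulVec_eq_zero hU0 h2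
    funext j
    have h4 := congrFun h3 j
    simpa using h4
  unfold Pool.Agent.R834.HA.inv
  rw [← hdet, Real.mul_rpow hc.le hu.le, mul_div_assoc', mul_comm (|C.det| ^ _), mul_div_mul_left _ _
    (by positivity)]
  exact div_le_div_of_nonneg_right hmin (by positivity)

theorem main_ineq {m n : ℕ} (hm : 0 < m) (hn : 0 < n) {A : Matrix (Fin m) (Fin m) ℝ}
    {B : Matrix (Fin n) (Fin n) ℝ} (hA : A.det ≠ 0) (hB : B.det ≠ 0)
    {C : Matrix (Fin (m * n)) (Fin (m * n)) ℝ} {k : ℝ} (hC : C.det ≠ 0)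
    (h : HasSub C (tens A B) k) :
    0 < k ∧ inv C ≤ k ^ ((2 : ℝ) / ((m * n : ℕ) : ℝ)) * (inv A * inv B) := by
  have hT : (tens A B).det ≠ 0 := by
    rw [det_tens]
    exact mul_ne_zero (pow_ne_zero _ hA) (pow_ne_zero _ hB)
  obtain ⟨h1, h2⟩ := inv_le_of_hasSub (Nat.mul_pos hm hn) hC hT h
  exact ⟨h1, h2.trans (mul_le_mul_of_nonneg_left (inv_tens_le hm hn A B hA hB)
    (Real.rpow_nonneg h1.le _))⟩

end Pool.Agent.U837.TP
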